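import Pool.Agent.T2H41.CX.Main

/-!
# The Hasse principle for 100% of the complete intersections in products of projective spaces

Let `n ≥ 3`, `r ≥ 1`, `d_j ≥ 2` with `d_1 + ⋯ + d_r ≤ n`, let `b ≥ 0`, and let `N_t ≥ 0` and `D_{j,t} ≥ 1` be
arbitrary for `t < b`. For a system `F = (F_1, …, F_r)` of integral forms, `F_j` of multidegree
`(d_j, D_{j,0}, …, D_{j,b-1})`, let `X_F` be the subvariety `F_1 = ⋯ = F_r = 0` of
`ℙ^n × ℙ^(N 0) × ⋯ × ℙ^(N (b-1))`. If `X_F` is a smooth complete intersection then its canonical class is the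
restriction of `O(-(n + 1) + ∑ d_j, …, -(N_t + 1) + ∑_j D_{j,t}, …)`. So `X_F` is a Fano variety if
`∑_j d_j ≤ n` and `∑_j D_{j,t} ≤ N_t` for all `t`; the theorem needs the first condition only.

When the coefficients are ordered by their size, the `X_F` with points over the real numbers and over all the
`p`-adic fields are a positive proportion of all `X_F`, and a proportion tending to `1` of them has a rational
point.

The starting results contain the cases `b = 0` (complete intersections in `ℙ^n`) and `r = 1` (hypersurfaces in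
products of projective spaces). The proof specialises `y` to a rational point `y₀` near to the local points and
applies the starting class theorem to the fibre. The main new step is local: for almost all locally soluble
systems the local points can be chosen such that they are nondegenerate points of their fibres. The fibres of
`X_F` over the points of `ℙ^(N 0) × ⋯` are singular over a divisor; for this reason one counts the points modulo
`p ^ E` (and, at the real place, the points of a grid) near a nondegenerate point of the total space, and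
compares their number with the mean of the number of the points which are degenerate in their fibre.
-/

set_option autoImplicit false

namespace Pool.Agent.Results.MP_03ef3d_ag.CompleteIntersectionsInProducts

open Filter Topology

/-- The systems of `r` integral forms, the `j`-th of degree `d j` in the coordinates `x` of `ℙ^n` and of
multidegree `D j` in the coordinates `y` of `ℙ^(N 0) × … × ℙ^(N (b-1))`, with coefficients of absolute
value at most `H`. -/
def Systems {r b : ℕ} (n : ℕ) (d : Fin r → ℕ) (N : Fin b → ℕ) (D : Fin r → Fin b → ℕ) (H : ℕ) :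
    Set (Fin r → MvPolynomial (Fin (n + 1) ⊕ (Σ t : Fin b, Fin (N t + 1))) ℤ) :=
  {F | ∀ j, (∀ a ∈ (F j).support, (∑ i, a (Sum.inl i) = d j) ∧
      ∀ t, ∑ i, a (Sum.inr ⟨t, i⟩) = D j t) ∧ ∀ a, |(F j).coeff a| ≤ (H : ℤ)}

/-- The variety `F_1 = ⋯ = F_r = 0` has a point over the field `K`: a common zero for which `x` and all the
blocks of `y` are nonzero. -/
def HasPoint {r b n : ℕ} {N : Fin b → ℕ}
    (F : Fin r → MvPolynomial (Fin (n + 1) ⊕ (Σ t : Fin b, Fin (N t + 1))) ℤ)
    (K : Type) [Field K] : Prop :=
  ∃ (x : Fin (n + 1) → K) (y : (Σ t : Fin b, Fin (N t + 1)) → K),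
    x ≠ 0 ∧ (∀ t, ∃ i, y ⟨t, i⟩ ≠ 0) ∧ ∀ j, MvPolynomial.aeval (Sum.elim x y) (F j) = 0

/-- The variety has points over the real numbers and over all the `p`-adic fields. -/
def LocallySoluble {r b n : ℕ} {N : Fin b → ℕ}
    (F : Fin r → MvPolynomial (Fin (n + 1) ⊕ (Σ t : Fin b, Fin (N t + 1))) ℤ) : Prop :=
  HasPoint F ℝ ∧ ∀ (p : ℕ) [Fact p.Prime], HasPoint F ℚ_[p]

/-- For `n ≥ 3`, `d j ≥ 2` with `∑ d j ≤ n` and arbitrary `N t ≥ 0`, `D j t ≥ 1`: 100% of the everywhere locally
soluble systems of forms of the multidegrees `(d j, D j)` on `ℙ^n × ℙ^(N 0) × … × ℙ^(N (b-1))`, ordered by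
height, have a rational zero; the everywhere locally soluble ones are a positive proportion of all. -/
theorem result (n r b : ℕ) (d : Fin r → ℕ) (N : Fin b → ℕ) (D : Fin r → Fin b → ℕ)
    (hn : 3 ≤ n) (hr : 1 ≤ r) (hd : ∀ j, 2 ≤ d j) (hdn : ∑ j, d j ≤ n) (hD : ∀ j t, 1 ≤ D j t) :
    (∃ c : ℝ, 0 < c ∧ ∀ᶠ H : ℕ in atTop, c * ((Systems n d N D H).ncard : ℝ) ≤
      (({F | F ∈ Systems n d N D H ∧ LocallySoluble F} : Set _).ncard : ℝ)) ∧
    Tendsto (fun H : ℕ =>
      (({F | F ∈ Systems n d N D H ∧ HasPoint F ℚ} : Set _).ncard : ℝ) /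
      (({F | F ∈ Systems n d N D H ∧ LocallySoluble F} : Set _).ncard : ℝ)) atTop (𝓝 1) :=
  Pool.Agent.T2H41.CX.fFIN n r b d N D hn hr hd hdn hD

end Pool.Agent.Results.MP_03ef3d_ag.CompleteIntersectionsInProducts
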