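import Pool.Agent.T2H39.CP.Main

/-!
# The Hasse principle for 100% of the cyclic covers of products of projective spaces

Let `n ≥ 2`, `m ≥ 2`, `κ ≥ 1` and `(m - 1) κ ≤ n`, let `s ≥ 0` and let `N j ≥ 0`, `κb j ≥ 1` be
arbitrary for `j < s`. For `F` of multidegree `(m κ, m κb 0, …, m κb (s-1))` with integral
coefficients in the coordinates of `ℙ^n × ℙ^(N 0) × … × ℙ^(N (s-1))` let `X_F` be the cyclic cover
`w ^ m = F(x; y)` of degree `m` of this product. If the branch divisor `F = 0` is smooth then `X_F`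
is smooth, and its canonical class is the pull-back of
`O(-(n + 1) + (m - 1) κ, …, -(N j + 1) + (m - 1) κb j, …)`. So `X_F` is a Fano variety if and only if
`(m - 1) κ ≤ n` and `(m - 1) κb j ≤ N j` for all `j`; the theorem needs the first condition only, so
that most of its families are not Fano (they are fibred into Fano cyclic covers of `ℙ^n`). It contains
all the families of Fano cyclic covers, with all branch degrees positive, of products of at least two
projective spaces of positive dimension except the double covers of `(ℙ^1)^r` branched in a divisor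
of multidegree `(2, …, 2)`: a Fano cyclic cover of such a product with a factor of dimension at least
two has, for this factor, `n ≥ 2` and `(m - 1) κ ≤ n`.

When the coefficients of `F` are ordered by their size, the `X_F` with points over the real numbers
and over all the `p`-adic fields are a positive proportion of all `X_F`, and a proportion tending to
`1` of them has a rational point.
-/

set_option autoImplicit false

namespace Pool.Agent.Results.MP_03ef3d_ag.CyclicCoversOfProducts

open Filter Topology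

/-- The forms of degree `D0` in the coordinates `x` of `ℙ^n` and of multidegree `D` in the coordinates
`y` of `ℙ^(N 0) × … × ℙ^(N (s-1))` whose coefficients are integers of absolute value at most `H`. -/
def Forms {s : ℕ} (n D0 : ℕ) (N D : Fin s → ℕ) (H : ℕ) :
    Set (MvPolynomial (Fin (n + 1) ⊕ (Σ j : Fin s, Fin (N j + 1))) ℤ) :=
  {F | (∀ a ∈ F.support, (∑ i, a (Sum.inl i) = D0) ∧ ∀ j, ∑ i, a (Sum.inr ⟨j, i⟩) = D j) ∧
    ∀ a, |F.coeff a| ≤ (H : ℤ)}

/-- The cyclic cover `w ^ m = F(x; y)` of `ℙ^n × ℙ^(N 0) × … × ℙ^(N (s-1))` has a point over the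
field `K`: `x` and all the blocks of `y` are nonzero. -/
def HasPoint {s n : ℕ} {N : Fin s → ℕ} (m : ℕ)
    (F : MvPolynomial (Fin (n + 1) ⊕ (Σ j : Fin s, Fin (N j + 1))) ℤ) (K : Type) [Field K] : Prop :=
  ∃ (x : Fin (n + 1) → K) (y : (Σ j : Fin s, Fin (N j + 1)) → K) (w : K),
    x ≠ 0 ∧ (∀ j, ∃ i, y ⟨j, i⟩ ≠ 0) ∧ w ^ m = MvPolynomial.aeval (Sum.elim x y) F

/-- The cyclic cover has points over the real numbers and over all the `p`-adic fields. -/
def LocallySoluble {s n : ℕ} {N : Fin s → ℕ} (m : ℕ)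
    (F : MvPolynomial (Fin (n + 1) ⊕ (Σ j : Fin s, Fin (N j + 1))) ℤ) : Prop :=
  HasPoint m F ℝ ∧ ∀ (p : ℕ) [Fact p.Prime], HasPoint m F ℚ_[p]

/-- For `n ≥ 2`, `m ≥ 2`, `κ ≥ 1` with `(m - 1) κ ≤ n` and arbitrary `N j ≥ 0`, `κb j ≥ 1`: 100% of
the everywhere locally soluble cyclic covers `w ^ m = F(x; y)` of `ℙ^n × ℙ^(N 0) × … × ℙ^(N (s-1))`,
`F` of multidegree `(m κ, m κb 0, …, m κb (s-1))`, ordered by height, have a rational point; the
everywhere locally soluble ones are a positive proportion of all. -/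
theorem result (n m κ s : ℕ) (N κb : Fin s → ℕ) (hn : 2 ≤ n) (hm : 2 ≤ m) (hκ : 1 ≤ κ)
    (h : (m - 1) * κ ≤ n) (hκb : ∀ j, 1 ≤ κb j) :
    (∃ c : ℝ, 0 < c ∧ ∀ᶠ H : ℕ in atTop,
      c * ((Forms n (m * κ) N (fun j => m * κb j) H).ncard : ℝ) ≤
        (({F | F ∈ Forms n (m * κ) N (fun j => m * κb j) H ∧ LocallySoluble m F} :
          Set _).ncard : ℝ)) ∧
    Tendsto (fun H : ℕ =>
      (({F | F ∈ Forms n (m * κ) N (fun j => m * κb j) H ∧ HasPoint m F ℚ} : Set _).ncard : ℝ) /
      (({F | F ∈ Forms n (m * κ) N (fun j => m * κb j) H ∧ LocallySoluble m F} :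
        Set _).ncard : ℝ)) atTop (𝓝 1) :=
  Pool.Agent.T2H39.CP.fFINB n m κ s N κb hn hm hκ h hκb

end Pool.Agent.Results.MP_03ef3d_ag.CyclicCoversOfProducts
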