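import Pool.Agent.T2H39.FC.Main

/-!
# The Hasse principle for 100% of the Fano cyclic covers of `ℙⁿ`

Let `n ≥ 2`, `m ≥ 2`, `k ≥ 1` and `(m - 1) k ≤ n`. For a form `F` of degree `m k` in `x_0, …, x_n`
with integral coefficients let `X_F` be the cyclic cover `w ^ m = F(x_0, …, x_n)` of `ℙⁿ` of degree
`m` (a hypersurface of degree `m k` in the weighted projective space `ℙ(1, …, 1, k)`, of dimension
`n`). If the branch divisor `F = 0` is smooth then `X_F` is smooth, with `-K` the pull-back of
`O(n + 1 - (m - 1) k)`; so the condition `(m - 1) k ≤ n` says exactly that `X_F` is a Fano variety: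
the theorem covers *all* the families of Fano cyclic covers of projective spaces of dimension
`n ≥ 2`, for instance

* `n = 2`: the del Pezzo surfaces of degree `2` (`w ^ 2 = F(x, y, z)`, `deg F = 4`), for which the
  Hasse principle fails in general, and the cyclic cubic surfaces `w ^ 3 = F(x, y, z)`;
* `n = 3`: the double solids branched in a quartic or a sextic surface.

Among the `F` with coefficients bounded by `H` and smooth branch divisor for which `X_F` has points
over the real numbers and over all the `p`-adic fields (this is a positive proportion of all `F`), a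
proportion tending to `1` as `H → ∞` has the property that `X_F` has a rational point.
-/

set_option autoImplicit false

namespace Pool.Agent.Results.MP_03ef3d_ag.FanoCyclicCovers

open Filter Topology

/-- The forms of degree `D` in `n + 1` variables whose coefficients are integers of absolute value
at most `H`. -/
def Forms (n D H : ℕ) : Set (MvPolynomial (Fin (n + 1)) ℤ) :=
  {F | F.IsHomogeneous D ∧ ∀ a, |F.coeff a| ≤ (H : ℤ)}

/-- The hypersurface `F = 0` in `ℙⁿ` is smooth: at every zero over a field of characteristic zero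
some partial derivative does not vanish. -/
def Smooth {n : ℕ} (F : MvPolynomial (Fin (n + 1)) ℤ) : Prop :=
  ∀ (K : Type) [Field K] [CharZero K] (x : Fin (n + 1) → K), x ≠ 0 →
    MvPolynomial.aeval x F = 0 → ∃ i, MvPolynomial.aeval x (MvPolynomial.pderiv i F) ≠ 0

/-- The cyclic cover `w ^ m = F(x)` of `ℙⁿ` has a point over the field `K`. -/
def HasPoint {n : ℕ} (m : ℕ) (F : MvPolynomial (Fin (n + 1)) ℤ) (K : Type) [Field K] : Prop :=
  ∃ (x : Fin (n + 1) → K) (w : K), x ≠ 0 ∧ w ^ m = MvPolynomial.aeval x F

/-- The cyclic cover has points over the real numbers and over all the `p`-adic fields. -/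
def LocallySoluble {n : ℕ} (m : ℕ) (F : MvPolynomial (Fin (n + 1)) ℤ) : Prop :=
  HasPoint m F ℝ ∧ ∀ (p : ℕ) [Fact p.Prime], HasPoint m F ℚ_[p]

/-- For `n ≥ 2`, `m ≥ 2`, `k ≥ 1` in the Fano range `(m - 1) k ≤ n`, 100% of the everywhere locally
soluble smooth cyclic covers `w ^ m = F(x)` of `ℙⁿ`, `deg F = m k`, ordered by height, have a
rational point; the everywhere locally soluble ones are a positive proportion. -/
theorem result (n m k : ℕ) (hn : 2 ≤ n) (hm : 2 ≤ m) (hk : 1 ≤ k) (h : (m - 1) * k ≤ n) :
    (∃ c : ℝ, 0 < c ∧ ∀ᶠ H : ℕ in atTop, c * ((Forms n (m * k) H).ncard : ℝ) ≤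
      (({F | F ∈ Forms n (m * k) H ∧ Smooth F ∧ LocallySoluble m F} : Set _).ncard : ℝ)) ∧
    Tendsto (fun H : ℕ =>
      (({F | F ∈ Forms n (m * k) H ∧ Smooth F ∧ HasPoint m F ℚ} : Set _).ncard : ℝ) /
      (({F | F ∈ Forms n (m * k) H ∧ Smooth F ∧ LocallySoluble m F} : Set _).ncard : ℝ))
      atTop (𝓝 1) :=
  Pool.Agent.T2H39.FC.fFIN n m k hn hm hk h

end Pool.Agent.Results.MP_03ef3d_ag.FanoCyclicCovers
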