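import Pool.Agent.T2H39.CV.Main

/-!
# The Hasse principle for 100% of the cyclic covers of Grassmannians and of all varieties swept out
by linear spaces

The notions used are defined in `Pool/Agent/T2H39/CV/Defs.lean` (`Cone`, `IsCone`, `Swept`, `PtV`,
`ElsV`), `Pool/Agent/T2H39/CV/Stm.lean` (`Pl`, `pl`, `Gr`) and `Pool/Agent/T2H39/CV/FinStm.lean`
(`Forms`):

* A `Cone ι` consists of sets of vectors with coordinates indexed by the finite set `ι` over `ℚ`, `ℝ`
  and all `ℚ_[p]`; think of the cone over a projective variety `V` over `ℚ`.
* `Swept k V`: these sets consist of nonzero vectors and are stable under scalars, rational points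
  are real and `p`-adic points, and the `k`-dimensional rational linear spaces contained in `V`
  (i.e. the `ℙ^(k-1) ⊆ V` defined over `ℚ`) are dense: for every real point, every finite set of
  primes `p` and points over the corresponding `ℚ_[p]` there is one which comes arbitrarily close to
  all these points. In particular `V` satisfies weak approximation.
* `Gr q k` is the Grassmannian of the `(q+1)`-dimensional subspaces of a `(q+k)`-dimensional space in
  its Plücker embedding. It is swept out by the linear spaces formed by the subspaces which contain a
  given `q`-dimensional one.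
* `PtV m X F`: the cyclic cover `v ^ m = F(z)`, `z ∈ X`, has a point; `ElsV m V F`: it has points over
  the real numbers and over all the `p`-adic fields. `Forms ι D H`: the forms of degree `D` in the
  coordinates of the ambient space with integral coefficients of absolute value at most `H`.

Let `k ≥ 3`, `m ≥ 2`, `κ ≥ 1` and `(m - 1) κ < k`. The theorem says that for `V` swept out by linear
spaces of (projective) dimension `k - 1` the everywhere locally soluble cyclic covers
`v ^ m = F(z)`, `z ∈ V`, `deg F = m κ`, are a positive proportion of all, and 100% of them have a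
rational point, and that all Grassmannians `Gr q k` are such `V`. The cyclic cover of degree `m` of
the Grassmannian branched in a smooth section of degree `m κ` is a Fano variety if and only if
`(m - 1) κ < q + k`, its canonical class being the pull-back of `O(-(q + k) + (m - 1) κ)`; in
particular all the covers to which the theorem applies are Fano varieties (if smooth). The case
`q = 0` is the projective space `ℙ^(k-1)`; `Gr 1 3` is the Klein quadric `G(2, 4) ⊂ ℙ^5`.
-/

set_option autoImplicit false

namespace Pool.Agent.Results.MP_03ef3d_ag.SweptByLinearSpaces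

open Filter Topology Pool.Agent.T2H39.CV

/-- Let `k ≥ 3`, `m ≥ 2`, `κ ≥ 1`, `(m - 1) κ < k`. For every `V` swept out by rational linear spaces of
projective dimension `k - 1`, and every Grassmannian `Gr q k` is of this kind, 100% of the everywhere
locally soluble cyclic covers `v ^ m = F(z)`, `z ∈ V`, `deg F = m κ`, have a rational point; the
everywhere locally soluble ones are a positive proportion of all. -/
theorem result (k m κ : ℕ) (hk : 3 ≤ k) (hm : 2 ≤ m) (hκ : 1 ≤ κ) (h : (m - 1) * κ < k) :
    (∀ (ι : Type) [Fintype ι] (V : Cone ι), Swept k V → V.R.Nonempty →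
      (∃ c : ℝ, 0 < c ∧ ∀ᶠ H : ℕ in atTop, c * ((Forms ι (m * κ) H).ncard : ℝ) ≤
        (({F | F ∈ Forms ι (m * κ) H ∧ ElsV m V F} : Set _).ncard : ℝ)) ∧
      Tendsto (fun H : ℕ => (({F | F ∈ Forms ι (m * κ) H ∧ PtV m V.Q F} : Set _).ncard : ℝ) /
        (({F | F ∈ Forms ι (m * κ) H ∧ ElsV m V F} : Set _).ncard : ℝ)) atTop (𝓝 1)) ∧
    ∀ q : ℕ, Swept k (Gr q k) ∧ (Gr q k).R.Nonempty :=
  ⟨fun ι _ V hV hR => fFINV ι k m κ hk hm hκ h V hV hR, fun q => fGRS q k (by omega)⟩

end Pool.Agent.Results.MP_03ef3d_ag.SweptByLinearSpaces
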